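import Mathlib
import Pool.Agent.V11296.KC

/-!
# Twice Fermat primes and Harborth's sets `K_c`: infinitely many `c`

For every `r ≥ 3` the numbers `2 q`, `q > 3` a Fermat prime, lie in `K_c` with `c = 2^r - 1`.

Let `k = 2 q` with `q = 2^L + 1`, and `k / (c+1) ≤ n ≤ k / c`. As `gcd(n, k - c n)` divides `2 q`
and `n < q`, only even `n = 2 n'` matter, and then one has to see that the addition of `u = q - c n'`
and `v = n' - u` in base two has more than `v_2(n')` carries. Here `v = 2^r n' - 2^L - 1`. For even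
`n'` this gives `v ≡ -1` modulo `2^(v_2(n') + 1)`, while `u` is odd. For odd `n'`, if there were no
carry then the digit `v_i` would be `1` for every `i < L` not divisible by `r`, and `v` would be too
large.
-/

set_option autoImplicit false

namespace Pool.Agent.Results.MP_82795f_nt.MersenneIndices

open Pool.Agent.V11296.KC

/-- `S ⊆ K_c` for every `c = 2^r - 1`, `r ≥ 3`; hence `S ⊆ K_c` for infinitely many `c ≥ 2`. -/
theorem result : (∀ r : ℕ, 3 ≤ r → S ⊆ K (2 ^ r - 1)) ∧ {c : ℕ | 2 ≤ c ∧ S ⊆ K c}.Infinite := by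
  have h : ∀ r : ℕ, 3 ≤ r → S ⊆ K (2 ^ r - 1) := by
    rintro r hr k ⟨q, hq, ⟨m, rfl⟩, h3, rfl⟩
    refine mem_K hr ?_ hq
    rcases m with _ | m
    · norm_num at h3
    · calc 2 = 2 ^ 1 := by norm_num
        _ ≤ 2 ^ (m + 1) := Nat.pow_le_pow_right (by norm_num) (by omega)
  refine ⟨h, ?_⟩
  rw [Set.infinite_iff_exists_gt]
  intro N
  refine ⟨2 ^ (N + 3) - 1, ⟨?_, h _ (by omega)⟩, ?_⟩
  · have : 2 ^ 3 ≤ 2 ^ (N + 3) := Nat.pow_le_pow_right (by norm_num) (by omega)
    omega
  · have : N + 3 < 2 ^ (N + 3) := Nat.lt_two_pow_self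
    omega

end Pool.Agent.Results.MP_82795f_nt.MersenneIndices
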