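import Mathlib
import Pool.Agent.V11296.KC

/-!
# Twice Fermat primes and Harborth's sets `K_c`: multiples of three

The number `514 = 2 · 257` does not belong to `K_12`: the integer `n = 40` lies between `514 / 13`
and `514 / 12`, and it does not divide the binomial coefficient `40` over `514 - 12 · 40 = 34`.
-/

set_option autoImplicit false

namespace Pool.Agent.Results.MP_82795f_nt.TwelveFails

open Pool.Agent.V11296.KC

/-- There are a positive multiple `c` of `3` and a Fermat prime `q > 3` with `2 q ∉ K_c`. -/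
theorem result : ∃ c : ℕ, 0 < c ∧ 3 ∣ c ∧
    ∃ q : ℕ, q.Prime ∧ (∃ m : ℕ, q = 2 ^ 2 ^ m + 1) ∧ 3 < q ∧ 2 * q ∉ K c := by
  refine ⟨12, by norm_num, by norm_num, 257, by norm_num, ⟨3, by norm_num⟩, by norm_num, ?_⟩
  rintro ⟨-, h⟩
  have h1 := h 40 (by norm_num) (by norm_num)
  revert h1
  decide +kernel

end Pool.Agent.Results.MP_82795f_nt.TwelveFails
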